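import Mathlib

/-!
There are at least two connected `(6,3)`-regular graphs, and if `2 k ≤ 3 t + 3` then every
connected `(k,t)`-regular graph is finite; in particular this holds for `(k,t) = (6,3)`.
-/

namespace Pool.Agent.Results.MP_74392e_co.SixThree

open SimpleGraph

/-- Every vertex has exactly `k` neighbours and every edge lies in exactly `t` triangles
(equivalently, every local graph is `t`-regular). -/
def LocallyRegular (k t : ℕ) {V : Type} (G : SimpleGraph V) : Prop :=
  (∀ v, (G.neighborSet v).encard = k) ∧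
  ∀ v u, G.Adj v u → (G.neighborSet v ∩ G.neighborSet u).encard = t

theorem closed_ball {k t : ℕ} (hkt : 2 * k ≤ 3 * t + 3) {V : Type} {G : SimpleGraph V}
    (h : LocallyRegular k t G) {v u x z : V} (hvu : G.Adj v u) (hux : G.Adj u x)
    (hxz : G.Adj x z) : z = v ∨ G.Adj v z ∨ ∃ w, G.Adj v w ∧ G.Adj w z := by
  classical
  by_cases hxv : x = v
  · subst hxv; exact Or.inr (Or.inl hxz)
  by_cases hvx : G.Adj v x
  · exact Or.inr (Or.inr ⟨x, hvx, hxz⟩)
  by_contra hcon
  push Not at hcon
  obtain ⟨hzv, hvz, hno⟩ := hcon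
  have hfin : ∀ w, (G.neighborSet w).Finite := by
    intro w
    rw [← Set.encard_lt_top_iff, h.1 w]
    exact ENat.natCast_lt_top k
  have hk : ∀ w, (G.neighborSet w).ncard = k := by
    intro w
    rw [Set.ncard, h.1 w]; rfl
  have ht : ∀ a b, G.Adj a b → (G.neighborSet a ∩ G.neighborSet b).ncard = t := by
    intro a b hab
    rw [Set.ncard, h.2 a b hab]; rfl
  -- common neighbours of `v`, `u`, `x`
  let A := G.neighborSet u ∩ G.neighborSet v
  let B := G.neighborSet u ∩ G.neighborSet x
  have hA : A.ncard = t := ht u v hvu.symm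
  have hB : B.ncard = t := ht u x hux
  have hAf : A.Finite := (hfin u).subset Set.inter_subset_left
  have hBf : B.Finite := (hfin u).subset Set.inter_subset_left
  have h1 : (A ∪ B).ncard + (A ∩ B).ncard = t + t := by
    rw [Set.ncard_union_add_ncard_inter _ _ hAf hBf, hA, hB]
  have h2 : (insert v (insert x (A ∪ B))).ncard = (A ∪ B).ncard + 2 := by
    have hx : x ∉ A ∪ B := by
      rintro (⟨-, h⟩ | ⟨-, h⟩)
      · exact hvx h
      · exact G.loopless.irrefl _ h
    have hv : v ∉ insert x (A ∪ B) := by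
      rintro (h | ⟨-, h⟩ | ⟨-, h⟩)
      · exact hxv h.symm
      · exact G.loopless.irrefl _ h
      · exact hvx h.symm
    rw [Set.ncard_insert_of_notMem hv ((hAf.union hBf).insert _),
      Set.ncard_insert_of_notMem hx (hAf.union hBf)]
  have h3 : (insert v (insert x (A ∪ B))).ncard ≤ k := by
    rw [← hk u]
    refine Set.ncard_le_ncard ?_ (hfin u)
    rintro w (rfl | rfl | ⟨h, -⟩ | ⟨h, -⟩)
    · exact hvu.symm
    · exact hux
    · exact h
    · exact h
  -- neighbours of `x`
  let Z := G.neighborSet x ∩ G.neighborSet z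
  have hZ : Z.ncard = t := ht x z hxz
  have hZf : Z.Finite := (hfin x).subset Set.inter_subset_left
  have hABf : (A ∩ B).Finite := hAf.subset Set.inter_subset_left
  have h4 : (insert z (insert u ((A ∩ B) ∪ Z))).ncard = (A ∩ B).ncard + t + 2 := by
    have hdis : Disjoint (A ∩ B) Z := by
      rw [Set.disjoint_left]
      rintro w ⟨⟨-, hw1⟩, -⟩ ⟨-, hw2⟩
      exact hno w hw1 (G.adj_symm hw2)
    have hu : u ∉ (A ∩ B) ∪ Z := by
      rintro (⟨⟨h, -⟩, -⟩ | ⟨-, h⟩)
      · exact G.loopless.irrefl _ h
      · exact hno u hvu (G.adj_symm h)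
    have hz : z ∉ insert u ((A ∩ B) ∪ Z) := by
      rintro (h | ⟨⟨-, h⟩, -⟩ | ⟨-, h⟩)
      · exact hvz (h ▸ hvu)
      · exact hvz h
      · exact G.loopless.irrefl _ h
    rw [Set.ncard_insert_of_notMem hz ((hABf.union hZf).insert _),
      Set.ncard_insert_of_notMem hu (hABf.union hZf), Set.ncard_union_eq hdis hABf hZf, hZ]
  have h5 : (insert z (insert u ((A ∩ B) ∪ Z))).ncard ≤ k := by
    rw [← hk x]
    refine Set.ncard_le_ncard ?_ (hfin x)
    rintro w (rfl | rfl | ⟨-, -, h⟩ | ⟨h, -⟩)
    · exact hxz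
    · exact hux.symm
    · exact h
    · exact h
  omega

theorem finite_of {k t : ℕ} (hkt : 2 * k ≤ 3 * t + 3) {V : Type} {G : SimpleGraph V}
    (h : LocallyRegular k t G) (hc : G.Connected) : Finite V := by
  obtain ⟨v⟩ := hc.nonempty
  have hfin : ∀ w, (G.neighborSet w).Finite := by
    intro w
    rw [← Set.encard_lt_top_iff, h.1 w]
    exact ENat.natCast_lt_top k
  let B : Set V := {z | z = v ∨ G.Adj v z ∨ ∃ w, G.Adj v w ∧ G.Adj w z}
  have hBfin : B.Finite := by
    have : B ⊆ insert v (G.neighborSet v ∪ ⋃ w ∈ G.neighborSet v, G.neighborSet w) := by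
      rintro z (rfl | h | ⟨w, h1, h2⟩)
      · exact Or.inl rfl
      · exact Or.inr (Or.inl h)
      · exact Or.inr (Or.inr (Set.mem_biUnion h1 h2))
    refine Set.Finite.subset ?_ this
    exact ((hfin v).union ((hfin v).biUnion fun w _ => hfin w)).insert v
  have hclosed : ∀ x ∈ B, ∀ z, G.Adj x z → z ∈ B := by
    rintro x (rfl | h1 | ⟨w, h1, h2⟩) z hxz
    · exact Or.inr (Or.inl hxz)
    · exact Or.inr (Or.inr ⟨x, h1, hxz⟩)
    · exact closed_ball hkt h h1 h2 hxz
  have hall : ∀ z, z ∈ B := by
    intro z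
    obtain ⟨p⟩ := hc.preconnected v z
    have key : ∀ (a b : V) (p : G.Walk a b), a ∈ B → b ∈ B := by
      intro a b p
      induction p with
      | nil => exact id
      | cons hadj p ih => exact fun ha => ih (hclosed _ ha _ hadj)
    exact key v z p (Or.inl rfl)
  have : (Set.univ : Set V).Finite := hBfin.subset fun z _ => hall z
  exact Set.finite_univ_iff.1 this

/-! ### Two `(6,3)`-regular graphs -/

/-- The complete tripartite graph with parts of size three. -/
def tri : SimpleGraph (Fin 3 × Fin 3) where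
  Adj u v := u.1 ≠ v.1
  symm := ⟨fun _ _ h => Ne.symm h⟩
  loopless := ⟨fun _ h => h rfl⟩

instance : DecidableRel tri.Adj := fun u v => inferInstanceAs (Decidable (u.1 ≠ v.1))

/-- The two-element subsets of a five-element set, as pairs `i < j`. -/
abbrev Pr : Type := {p : Fin 5 × Fin 5 // p.1 < p.2}

/-- The line graph of the complete graph on five vertices. -/
def lin : SimpleGraph Pr where
  Adj p q := p ≠ q ∧ (p.1.1 = q.1.1 ∨ p.1.1 = q.1.2 ∨ p.1.2 = q.1.1 ∨ p.1.2 = q.1.2)
  symm := ⟨by
    rintro p q ⟨h1, h2⟩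
    refine ⟨h1.symm, ?_⟩
    rcases h2 with h | h | h | h
    · exact Or.inl h.symm
    · exact Or.inr (Or.inr (Or.inl h.symm))
    · exact Or.inr (Or.inl h.symm)
    · exact Or.inr (Or.inr (Or.inr h.symm))⟩
  loopless := ⟨fun _ h => h.1 rfl⟩

instance : DecidableRel lin.Adj := fun p q =>
  inferInstanceAs (Decidable (p ≠ q ∧
    (p.1.1 = q.1.1 ∨ p.1.1 = q.1.2 ∨ p.1.2 = q.1.1 ∨ p.1.2 = q.1.2)))

theorem locallyRegular_of {V : Type} [Fintype V] [DecidableEq V] (G : SimpleGraph V)
    [DecidableRel G.Adj] {k t : ℕ} (h1 : ∀ v, (Finset.univ.filter fun w => G.Adj v w).card = k)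
    (h2 : ∀ v u, G.Adj v u → (Finset.univ.filter fun w => G.Adj v w ∧ G.Adj u w).card = t) :
    LocallyRegular k t G := by
  constructor
  · intro v
    have : G.neighborSet v = ((Finset.univ.filter fun w => G.Adj v w : Finset V) : Set V) := by
      ext w; simp
    rw [this, Set.encard_coe_eq_coe_finsetCard, h1]
  · intro v u hvu
    have : G.neighborSet v ∩ G.neighborSet u =
        ((Finset.univ.filter fun w => G.Adj v w ∧ G.Adj u w : Finset V) : Set V) := by
      ext w; simp
    rw [this, Set.encard_coe_eq_coe_finsetCard, h2 v u hvu]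

theorem connected_of {V : Type} [Nonempty V] (G : SimpleGraph V)
    (h : ∀ u v, u = v ∨ G.Adj u v ∨ ∃ w, G.Adj u w ∧ G.Adj w v) : G.Connected := by
  rw [connected_iff]
  refine ⟨fun u v => ?_, inferInstance⟩
  rcases h u v with rfl | h | ⟨w, h1, h2⟩
  · exact Reachable.refl _
  · exact h.reachable
  · exact h1.reachable.trans h2.reachable

set_option maxRecDepth 10000 in
theorem tri_reg : LocallyRegular 6 3 tri :=
  locallyRegular_of tri (by decide) (by decide)

set_option maxRecDepth 10000 in
theorem tri_conn : tri.Connected := connected_of tri (by decide)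

set_option maxRecDepth 10000 in
theorem lin_reg : LocallyRegular 6 3 lin :=
  locallyRegular_of lin (by decide +kernel) (by decide +kernel)

instance : Nonempty Pr := ⟨⟨(0, 1), by decide⟩⟩

set_option maxRecDepth 10000 in
theorem lin_conn : lin.Connected := connected_of lin (by decide +kernel)

/-- The pair `(6,3)` has at least two connected graphs, and for all pairs with
`2 k ≤ 3 t + 3`, such as `(6,3)`, all connected graphs are finite. -/
theorem result :
    (∃ (V W : Type) (G : SimpleGraph V) (H : SimpleGraph W), G.Connected ∧ H.Connected ∧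
      LocallyRegular 6 3 G ∧ LocallyRegular 6 3 H ∧ IsEmpty (G ≃g H)) ∧
    ∀ k t : ℕ, 2 * k ≤ 3 * t + 3 → ∀ (V : Type) (G : SimpleGraph V),
      LocallyRegular k t G → G.Connected → Finite V := by
  refine ⟨⟨_, _, tri, lin, tri_conn, lin_conn, tri_reg, lin_reg, ⟨fun e => ?_⟩⟩,
    fun k t hkt V G h hc => finite_of hkt h hc⟩
  have h1 := Fintype.card_congr e.toEquiv
  have h2 : Fintype.card (Fin 3 × Fin 3) = 9 := by decide
  have h3 : Fintype.card Pr = 10 := by decide
  omega

end Pool.Agent.Results.MP_74392e_co.SixThree
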